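import Pool.Agent.Helper81.RP.Final

open Pool.Agent.Helper65.LinSpace Pool.Agent.Helper81.Sus2 Pool.Agent.Helper81.RP
open Pool.Agent.Helper31.Gen5 (Hard)
open Pool.Agent.Helper81.Gen4 (Q)

namespace Pool.Agent.Results.MP_c578c8_lc.SustainedMemory

/-- **Sustained memory of random access machines and of nondeterministic machines.** Let `c > 0`. There
is a language `L` in `DSPACE(n)` which is hard (`Gen5.Hard`) for the following machines, in three ways.
Let `M` be `L` or the complement of `L`.

* Almost everywhere: if the machine (without advice) accepts only finitely many words outside `M` then
  it accepts only finitely many words within the bounds.
* Relative to the errors, with advice `α` of any length `m`: if the machine accepts `E` words of length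
  `n` outside `M` then it accepts within the bounds at most `(√E + c' (m + 1) 2^(m / 2 c))^2` words of
  length `n` in `M`.
* On average: the machine is correct within the bounds on at most
  `2^n / 2 + c' (m + 1) 2^((n + m / c) / 2)` words of length `n`.

The last part is about programs of random access machines (`Ins`: constants, addition, subtraction,
multiplication, division, indirect addressing, the letters of the input word and of a second word,
conditional jumps). The second word is the advice `α`, or `α` and a word of length `3 c n` with the
acceptance condition `Q` below. Every program which decides `L` (or the complement) with numbers less
than `2 ^ s`, in any time, passes, on all but finitely many of the accepted words of length `n`, through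
more than `r` successive steps such that at no time between them the memory has a description of `c n`
bits. Here `r s l^2 = C n^(3/2)`, `s l ≤ C n^(1/2)` and `l = ⌊log₂ n⌋ + 1 ≤ s`. In particular, if the
numbers have `O(log n)` bits then the time is more than `C n^(3/2) / log^3 n`.

The main part is about nondeterministic machines (`NBM`) which read the input word, an advice word `α`
and a word of length `3 c n`, for which the acceptance condition `Q` is used: `c n` letters are chosen in
turn by two players, then `c n` letters are random, then again `c n` letters are chosen in turn, and more
than half of the random words must be good for the first player. States and names of registers are words
of length at most `s`, registers contain words of length at most `a`. The registers are changed by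
messages; a message is a state which changes all registers at the same time. Only messages are counted,
other steps are free (up to `2 ^ h` per message; without bound if `s < h`). A description of the memory is
a word from which a decompressor (an arbitrary machine with random access to the input, the advice and
the description, whose states have at most `a` bits) computes contents of registers. A computation is
good (`NBM.Good`) if it can be divided into at most `2 ^ k` parts such that in a part at most `c n`
letters are guessed, and between two parts there is a description of at most `z` bits of a part of the
memory which is sufficient for the next part: a register which is read in a part, or which is described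
at the end of a part, is known, that is, it is described at the start of this part, or read-only, or it
was reset since then. The time and the number of messages of a part are not bounded; but there are at
most `x` messages in every stretch of a part during which the known part of the memory has no description
of at most `c n` bits. The bounds are, for `l = h + ⌊log₂ n⌋ + 1`: `x (s + l) l^2 ≤ C (n + 1)^(3/2)`,
`(s + l) (h + 1) l ≤ C (n + 1)^(1/2)`, `a l^2 ≤ C (n + 1)`, `(k + 1) (z + s + l) ≤ c (n + 1)`; for states
of `O(log n)` bits this means `x = C n^(3/2) / log^3 n`. Every language which is accepted by such machines
is in `DSPACE(n)`.

For example, if a nondeterministic machine with `s = O(log n)` decides `M` in time less than `2 ^ k`,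
`k = O(log n)`, then for every decompressor, on all but finitely many words in `M`, every accepting
computation has a stretch with more than `C n^(3/2) / log^3 n` messages or more than `c n` guessed letters
during which there is, all the time, no description of the contents of all registers with `c n / (4 k)`
bits. Without descriptions: no random access machine decides `M` in time `C n^(3/2) / log^3 n`, even if it
has a cache, that is a register of `n / log^2 n` bits which it reads and changes by functions computed in
linear space at no cost; then `C n^(3/2) / log^3 n` is a lower bound for the number of cache misses. -/
theorem result (c : ℕ) (hc : 0 < c) :
    (∀ (A : NBM) (E : Decomp) (L : Set (List Bool)) (C : ℝ),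
      (∀ w, Q (c * w.length) (fun v => ∃ g r, A.AcceptsAt w v g r) → w ∈ L) →
      (∀ w ∈ L, Q (c * w.length) (A.Good E c C w)) → DLINSPACE L) ∧
    ∃ L : Set (List Bool), DLINSPACE L ∧
      (∀ (A : NBM) (E : Decomp) (C : ℝ),
        Hard L c (fun w α => Q (c * w.length) fun v => ∃ g r, A.AcceptsAt w (α ++ v) g r)
          (fun w α => Q (c * w.length) fun v => A.Good E c C w (α ++ v))) ∧
      ∀ (P : List Ins) (E : Decomp) (C : ℝ),
        Hard L c (fun w α => ∃ t, AcceptsAt P w α t) (fun w α => Within P E c C w α) ∧
        Hard L c (fun w α => Q (c * w.length) fun v => ∃ t, AcceptsAt P w (α ++ v) t)
          (fun w α => Q (c * w.length) fun v => Within P E c C w (α ++ v)) :=
  sustained6 c hc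

end Pool.Agent.Results.MP_c578c8_lc.SustainedMemory
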