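import Pool.Agent.Helper53.UW.Fin

open Pool.Agent.Helper78.Mpc (LinComp)
open Pool.Agent.Helper92.RE (enc Universal NonUniversal)
open Pool.Agent.Helper31.Gen5 (Hard)
open Pool.Agent.Helper81.Gen4 (Q)
open Pool.Agent.Helper53.UV (Machine)
open Pool.Agent.Helper53.UW (Fast)
open Pool.Agent.Helper81.Sus2 (Decomp)
open Pool.Agent.Helper1.TE (USPACE)

namespace Pool.Agent.Results.MP_c578c8_lc.UniversalityOnRAMs

/-- **Deciding the universality of a regular expression of length `N` takes more than
`C N ^ 3 / log ^ 9 N` steps on Turing machines with a read-only input tape and one work tape, for every
`C`; and random access machines (with numbers `N ^ O(1)`, in any time) make more than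
`C N ^ 2 / log ^ 5 N` steps in a row during which their memory is never described by `ε N` bits, for any
decompressor in space `C N / log ^ 4 N`**.

The regular expressions over `{0, 1}` (`RegularExpression Bool` of Mathlib) are written as words over
`{0, 1}` in Polish notation, with three letters for every symbol (`enc`). `Universal` is the set of the
words `enc r` of the regular expressions `r` which describe all words, and `NonUniversal` is the set of
the words `enc r` of the other ones (it is complete for `NSPACE(n)`, Meyer and Stockmeyer 1972).

For every `c > 0` there are a language `L` such that `L` and its complement are in unambiguous
nondeterministic space `O(n)` (`USPACE`: nondeterministic Turing machines whose work heads stay, in all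
computations on `w`, within `c' (|w| + 1)` of their first cells, with at most one accepting computation
on every word), a map `f` from words to regular expressions, computable in linear space, and a constant
`b` such that `|w| ≤ |enc (f w)| ≤ b (|w| + 1)`, `f w` describes all words if and only if `w` is not in
`L`, and half of the words of length `n` are in `L`, up to `c' 2^(n/2)` words.

The words `w` and the words `F w = enc (f w)` are hard for all machines (`Machine`) of two kinds. A
machine gets a word `v` (`v = w` or `v = F w`) of length `m` and a second word `y`. It is fast (`Fast`), for a
decompressor `E` and the bounds `a` and `C`, if it accepts as follows, where `k = c |w|`.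

* Programs of random access machines (`Ins`, with the operations `+`, `-`, `*`, `/`). They accept at any
  time, and every stretch of more than `r` successive steps encloses a time when the memory has a
  description of at most `k` bits, from which the decompressor `E` (an arbitrary machine with random
  access to `v`, `y` and the description, whose states have at most `a'` bits, the next states being
  computed in linear space) computes the contents of all registers with numbers smaller than
  `2 ^ (9 s)`, where `r s ^ 5 ≤ C (m + 1) ^ 2` and `(a' + s) s ^ 4 ≤ C (m + 1)` (`FastSus`); or they accept
  in `C m ^ 2 / log ^ 5 m` steps with numbers smaller than `(m + 2) ^ a` (`FastTime`); or, at any time, with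
  an ideal cache of `k'` lines of `B` registers, from which all registers are loaded, and to which `x`
  lines are brought, where `x B s l ^ 4 ≤ C (m + 1) ^ 2` and `k' B s l ^ 4 ≤ C (m + 1)` (`FastCache`: the
  replacement may depend on the future; stores, arithmetic, letters and the time are free); or, at any
  time `t < 2 ^ (q s)`, with all loads and stores in a block of `q` registers and all letters in a
  window of `q` letters, the block and the window being changed only in `x` steps, where
  `x s l ^ 4 ≤ C (m + 1) ^ 2` and `q s l ^ 4 ≤ C (m + 1)` (`FastBlocks`). Here all numbers are less than
  `2 ^ s`, `s > log₂ m`, `l = b' + ⌊log₂ m⌋ + 1`, and only registers with numbers less than `2 ^ b'` are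
  loaded (or stored).
* Turing machines with a read-only input tape, with the word `v y` on it, and one work tape: they accept
  in `C m ^ 3 / log ^ 9 m` steps.

The plain statement: for `U = Universal` and for `U = NonUniversal`, every machine which accepts only
words in `U` is fast on only finitely many words `F w`, for all `E`, `a` and `C`. So machines which accept
`U` are slow on all but finitely many of the words `F w` in `U` (`c |w| ≥ ε |F w|` for long `w`).

Before it the statement for machines with a second word `y`, which is either an advice word `α` that
depends only on the length of `w`, or `α t u v` with three words of length `c |w|` and the acceptance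
condition `Q`: the letters of `t` are chosen in turn by two players, then `u` is random, then again the
letters of `v` are chosen in turn, and more than half of the words `u` must be good for the first player.
For every machine, `E`, `a` and `C` we have `Hard`, that is, there is a `c'` such that for `M = L` and for the
complement `M` of `L`, for all `n` and `α`, `m = |α|`: the machine is correct for `M` and fast on at most
`2^n / 2 + c' (m + 1) 2^((n + m / c) / 2)` words `w` of length `n`; if it accepts (for) `e` words `w` of
length `n` which are not in `M`, then it is fast for at most `(√e + c' (m + 1) 2^(m / (2 c)))^2` words `w`
of length `n` in `M`; if (without advice) it accepts for finitely many words `w` which are not in `M`,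
then it is fast for finitely many `w`.

The proof: machines of the two kinds which run in time `t` are simulated by unambiguous machines in
space `√t polylog t` and `∛t polylog t` (`Pool.Agent.Helper53.UV.simulOK`). This is done by a recursion in
which arguments that depend on earlier results are passed down; arguments and results are guessed and
hidden in registers, so that only right guesses can be undone later. For one work tape the tape is
divided into segments of `m / log ^ 4 m` cells, and the contents of the segments are never handed on,
only the states at the times when the head leaves a segment. For memories with descriptions the
simulation goes from one description to the next one, which is searched for and compared with the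
memory register by register. The language `L` is then found by diagonalization. -/
theorem result (c : ℕ) (hc : 0 < c) :
    ∃ (L : Set (List Bool)) (f : List Bool → RegularExpression Bool) (b : ℕ),
      L ∈ USPACE (fun n => (n : ℝ)) ∧ Lᶜ ∈ USPACE (fun n => (n : ℝ)) ∧
      LinComp (fun w => enc (f w)) ∧
      (∀ w, w.length ≤ (enc (f w)).length ∧ (enc (f w)).length ≤ b * (w.length + 1)) ∧
      (∀ w, (f w).matches' = ⊤ ↔ w ∉ L) ∧
      (∃ c' : ℝ, ∀ n : ℕ, |({w : List Bool | w.length = n ∧ w ∈ L}.ncard : ℝ) - 2 ^ n / 2| ≤
        c' * 2 ^ ((n : ℝ) / 2)) ∧
      (∀ F : List Bool → List Bool, F = id ∨ F = (fun w => enc (f w)) →
        ∀ (X : Machine) (E : Decomp) (a : ℕ) (C : ℝ),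
          Hard L c (fun w α => X.Acc (F w) α)
            (fun w α => Fast X E a C (c * w.length) (F w).length (F w) α) ∧
          Hard L c (fun w α => Q (c * w.length) fun v => X.Acc (F w) (α ++ v))
            (fun w α => Q (c * w.length) fun v =>
              Fast X E a C (c * w.length) (F w).length (F w) (α ++ v))) ∧
      ∀ U : Set (List Bool), U = Universal ∨ U = NonUniversal →
        ∀ X : Machine, (∀ v, X.Acc v [] → v ∈ U) → ∀ (E : Decomp) (a : ℕ) (C : ℝ),
          {w | Fast X E a C (c * w.length) (enc (f w)).length (enc (f w)) []}.Finite :=
  Pool.Agent.Helper53.UW.mainOK c hc

end Pool.Agent.Results.MP_c578c8_lc.UniversalityOnRAMs
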